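import Mathlib

set_option autoImplicit false
open Real Filter Topology Finset

namespace Pool.Agent.H.MP_807847_an

def a (i : ℕ) : ℕ := 10 ^ (i + 1)
def p (i : ℕ) : ℕ := 4 * a i + 1
def q : ℕ → ℕ
  | 0 => 1
  | k + 1 => q k * p k
def m0 (j : ℕ) : ℕ := 2 * p j * a (j + 1) - 1
def freq (j r : ℕ) : ℕ := q j * (m0 j + 2 * p j * p (j + 1) * r)
noncomputable def u (k : ℕ) : ℝ := π / q (k + 1)
noncomputable def s (j : ℕ) : ℝ := sin (π / p j)
noncomputable def sg (j : ℕ) : ℝ := sin (π * m0 j / (p j * p (j + 1)))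

lemma a_ge (i : ℕ) : 10 ≤ a i := by
  unfold a; rw [pow_succ]; have : 0 < 10 ^ i := by positivity
  omega
lemma p_ge (i : ℕ) : 41 ≤ p i := by unfold p; have := a_ge i; omega
lemma p_odd (i : ℕ) : Odd (p i) := ⟨2 * a i, by unfold p; ring⟩
lemma q_odd (k : ℕ) : Odd (q k) := by
  induction k with
  | zero => simp [q]
  | succ k ih => exact ih.mul (p_odd k)
lemma q_pos (k : ℕ) : 0 < q k := (q_odd k).pos
lemma q_ge (k : ℕ) : k + 1 ≤ q k := by
  induction k with
  | zero => simp [q]
  | succ k ih => have := p_ge k; simp only [q]; nlinarith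
lemma q_dvd {k j : ℕ} (h : k ≤ j) : q k ∣ q j := by
  induction j, h using Nat.le_induction with
  | base => rfl
  | succ j _ ih => exact ih.mul_right _
lemma m0_add (j : ℕ) : m0 j + 1 = 2 * p j * a (j + 1) := by
  unfold m0
  have := p_ge j; have := a_ge (j + 1)
  have : 0 < 2 * p j * a (j + 1) := by positivity
  omega
lemma m0_cast (j : ℕ) : (m0 j : ℝ) = 2 * p j * a (j + 1) - 1 := by
  have : ((m0 j + 1 : ℕ) : ℝ) = (2 * p j * a (j + 1) : ℕ) := by rw [m0_add]
  push_cast at this; linarith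
lemma freq_odd (j r : ℕ) : Odd (freq j r) := by
  refine (q_odd j).mul (Odd.add_even ?_ ⟨p j * p (j + 1) * r, by ring⟩)
  have := m0_add j
  rw [← Nat.not_even_iff_odd, ← Nat.even_add_one, this]
  exact ⟨p j * a (j + 1), by ring⟩
lemma freq_inj (j : ℕ) : Function.Injective (freq j) := by
  intro r r' h
  have h1 := Nat.eq_of_mul_eq_mul_left (q_pos j) h
  have := p_ge j; have := p_ge (j + 1)
  exact Nat.eq_of_mul_eq_mul_left (show 0 < 2 * p j * p (j + 1) by positivity) (by omega)

lemma F2 {j k : ℕ} (r : ℕ) (h : k < j) : sin (freq j r * u k) = 0 := by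
  obtain ⟨d, hd⟩ := q_dvd (show k + 1 ≤ j from h)
  have hq : (q (k + 1) : ℝ) ≠ 0 := by exact_mod_cast (q_pos _).ne'
  have : freq j r * u k = ((d * (m0 j + 2 * p j * p (j + 1) * r) : ℕ) : ℝ) * π := by
    unfold freq u; rw [hd]; push_cast; field_simp
  rw [this, sin_nat_mul_pi]

lemma F3 (j r : ℕ) : sin (freq j r * u j) = -s j := by
  have hq : (q j : ℝ) ≠ 0 := by exact_mod_cast (q_pos _).ne'
  have hp : (p j : ℝ) ≠ 0 := by exact_mod_cast (p_odd _).pos.ne'
  have : freq j r * u j = -(π / p j) + ((a (j + 1) + p (j + 1) * r : ℕ) : ℝ) * (2 * π) := by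
    unfold freq u; simp only [q]; push_cast; rw [m0_cast]; field_simp; ring
  rw [this, sin_add_nat_mul_two_pi, sin_neg, s]

lemma F4 (j r : ℕ) : sin (freq j r * u (j + 1)) = sg j := by
  have hq : (q j : ℝ) ≠ 0 := by exact_mod_cast (q_pos _).ne'
  have hp : (p j : ℝ) ≠ 0 := by exact_mod_cast (p_odd _).pos.ne'
  have hp' : (p (j + 1) : ℝ) ≠ 0 := by exact_mod_cast (p_odd _).pos.ne'
  have : freq j r * u (j + 1) = π * m0 j / (p j * p (j + 1)) + (r : ℝ) * (2 * π) := by
    unfold freq u; simp only [q]; push_cast; field_simp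
  rw [this, sin_add_nat_mul_two_pi, sg]

lemma s_pos (j : ℕ) : 0 < s j := by
  have hp : (41:ℝ) ≤ p j := by exact_mod_cast p_ge j
  exact sin_pos_of_pos_of_lt_pi (by positivity) (div_lt_self pi_pos (by linarith))

lemma s_le (j : ℕ) : s j ≤ 1 / 10 ^ (j + 1) := by
  have hp : (41:ℝ) ≤ p j := by exact_mod_cast p_ge j
  refine (sin_le (by positivity)).trans ?_
  rw [div_le_div_iff₀ (by positivity) (by positivity)]
  have : (p j : ℝ) = 4 * 10 ^ (j + 1) + 1 := by simp [p, a]
  rw [this]
  have : (0:ℝ) < 10 ^ (j + 1) := by positivity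
  nlinarith [pi_le_four]

lemma sg_ge (j : ℕ) : 1 / 2 ≤ sg j := by
  have hp : (41:ℝ) ≤ p j := by exact_mod_cast p_ge j
  have ha : (10:ℝ) ≤ a (j + 1) := by exact_mod_cast a_ge (j + 1)
  have hp' : (p (j + 1) : ℝ) = 4 * a (j + 1) + 1 := by simp [p]
  have hd : (0:ℝ) < p j * p (j + 1) := by rw [hp']; positivity
  have h1 : (1:ℝ) / 4 ≤ m0 j / (p j * p (j + 1)) := by
    rw [le_div_iff₀ hd, m0_cast, hp']; nlinarith
  have h2 : (m0 j : ℝ) / (p j * p (j + 1)) ≤ 1 / 2 := by
    rw [div_le_iff₀ hd, m0_cast, hp']; nlinarith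
  unfold sg
  rw [mul_div_assoc]
  refine le_trans ?_ (mul_le_sin (by positivity) (by nlinarith [pi_pos]))
  rw [← mul_assoc, div_mul_cancel₀ _ pi_pos.ne']
  linarith

noncomputable def c : ℕ → ℝ
  | 0 => 1
  | k + 1 => c k * s (k + 1) / sg (k + 1)

lemma c_pos (k : ℕ) : 0 < c k := by
  induction k with
  | zero => simp [c]
  | succ k ih =>
    have := s_pos (k + 1); have := sg_ge (k + 1)
    simp only [c]; positivity

lemma c_succ (k : ℕ) : c (k + 1) ≤ c k * (2 / 10 ^ (k + 2)) := by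
  have h1 := s_le (k + 1); have h2 := sg_ge (k + 1); have h3 := c_pos k
  simp only [c]
  rw [mul_div_assoc]
  refine mul_le_mul_of_nonneg_left ?_ h3.le
  rw [div_le_iff₀ (by linarith)]
  have : (0:ℝ) < 1 / 10 ^ (k + 2) := by positivity
  have e : (2:ℝ) / 10 ^ (k + 2) = 2 * (1 / 10 ^ (k + 2)) := by ring
  rw [e]; nlinarith

lemma c_half (k : ℕ) : c (k + 1) ≤ c k * (1 / 2) := by
  refine (c_succ k).trans (mul_le_mul_of_nonneg_left ?_ (c_pos k).le)
  rw [div_le_div_iff₀ (by positivity) (by positivity), pow_add]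
  have : (1:ℝ) ≤ 10 ^ k := one_le_pow₀ (by norm_num)
  nlinarith

lemma c_geo (J k : ℕ) : c (k + J) ≤ c J * (1 / 2) ^ k := by
  induction k with
  | zero => simp
  | succ k ih =>
    rw [show k + 1 + J = k + J + 1 by ring, pow_succ, ← mul_assoc]
    exact (c_half _).trans (by gcongr)

lemma c_anti : Antitone c := antitone_nat_of_succ_le fun k => by
  have := c_half k; have := c_pos k; linarith

lemma c_sum : Summable c :=
  Summable.of_nonneg_of_le (fun k => (c_pos k).le) (fun k => c_geo 0 k)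
    (summable_geometric_two.mul_left _)

noncomputable def m (n : ℕ) : ℝ := ∑' k, c k * sin (n * u (k + 1))

lemma csin (x : ℝ) (k : ℕ) : ‖c k * sin x‖ ≤ c k := by
  rw [norm_mul, Real.norm_of_nonneg (c_pos k).le]
  exact mul_le_of_le_one_right (c_pos k).le (abs_sin_le_one x)

lemma m_split (n J : ℕ) : |m n - ∑ k ∈ range J, c k * sin (n * u (k + 1))| ≤ 2 * c J := by
  have hs : Summable fun k => c k * sin (n * u (k + 1)) :=
    Summable.of_norm_bounded c_sum fun k => csin _ k
  unfold m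
  rw [← hs.sum_add_tsum_nat_add J, add_sub_cancel_left, ← Real.norm_eq_abs, mul_comm]
  exact tsum_of_norm_bounded (hasSum_geometric_two.mul_left (c J))
    fun k => (csin _ _).trans (c_geo J k)

lemma m_zero (r : ℕ) : 2 / 5 ≤ m (freq 0 r) := by
  have h := m_split (freq 0 r) 1
  have h1 := c_succ 0
  have h2 := sg_ge 0
  rw [sum_range_one, F4] at h
  simp only [show c 0 = 1 from rfl] at h h1
  have := (abs_le.1 h).1
  norm_num at h1
  linarith

lemma m_succ (j r : ℕ) : |m (freq (j + 1) r)| ≤ 2 * c (j + 2) := by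
  have h := m_split (freq (j + 1) r) (j + 2)
  rw [sum_range_succ, sum_range_succ, F3, F4, sum_eq_zero (fun k hk => by
    rw [F2 r (by have := mem_range.1 hk; omega), mul_zero])] at h
  have h2 := sg_ge (j + 1)
  have e : 0 + c j * -s (j + 1) + c (j + 1) * sg (j + 1) = 0 := by
    simp only [c]; field_simp; ring
  rwa [e, sub_zero] at h

noncomputable def M (j : ℕ) : ℕ := ⌈6 ^ j / c j⌉₊

lemma M_pos (j : ℕ) : (0:ℝ) < M j := by
  have := c_pos j
  exact lt_of_lt_of_le (by positivity) (Nat.le_ceil (6 ^ j / c j))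

noncomputable def T (l k : ℕ) : ℝ := ∑ r ∈ range (M l), sin (freq l r * u k)

lemma T_le (l k : ℕ) : |T l k| ≤ M l := by
  refine (abs_sum_le_sum_abs _ _).trans ?_
  refine (sum_le_card_nsmul _ _ 1 fun r _ => abs_sin_le_one _).trans ?_
  simp

noncomputable def A : ℕ → ℝ
  | 0 => 1
  | j + 1 => (∑ l : Fin (j + 1), A l / M l * T l (j + 1)) / s (j + 1)

lemma A_succ (j : ℕ) :
    A (j + 1) = (∑ l ∈ range (j + 1), A l / M l * T l (j + 1)) / s (j + 1) := by
  rw [A, Fin.sum_univ_eq_sum_range (fun l => A l / M l * T l (j + 1))]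

lemma A_kill (j : ℕ) : ∑ l ∈ range (j + 2), A l / M l * T l (j + 1) = 0 := by
  rw [sum_range_succ, A_succ]
  have h1 := s_pos (j + 1)
  have h2 := M_pos (j + 1)
  have : T (j + 1) (j + 1) = -(M (j + 1) * s (j + 1)) := by simp [T, F3]
  rw [this]
  field_simp
  ring

lemma A_le (j : ℕ) : |A j| * c j ≤ 3 ^ j := by
  induction j using Nat.strong_induction_on with
  | _ j ih =>
    cases j with
    | zero => simp [A, c]
    | succ j =>
      have h1 := s_pos (j + 1)
      have h2 := sg_ge (j + 1)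
      have h3 := c_pos j
      have h4 : |∑ l ∈ range (j + 1), A l / M l * T l (j + 1)| * c j
          ≤ ∑ l ∈ range (j + 1), (3:ℝ) ^ l := by
        refine (mul_le_mul_of_nonneg_right (abs_sum_le_sum_abs _ _) h3.le).trans ?_
        rw [sum_mul]
        refine sum_le_sum fun l hl => le_trans ?_ (ih l (mem_range.1 hl))
        have h5 := M_pos l
        refine mul_le_mul ?_ (c_anti (by have := mem_range.1 hl; omega)) h3.le (abs_nonneg _)
        rw [abs_mul, abs_div, abs_of_pos h5]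
        calc _ ≤ |A l| / M l * M l := by gcongr; exact T_le _ _
          _ = _ := by field_simp
      have h5 : ∑ l ∈ range (j + 1), (3:ℝ) ^ l = (3 ^ (j + 1) - 1) / 2 := by
        rw [geom_sum_eq (by norm_num)]; norm_num
      rw [A_succ, abs_div, abs_of_pos h1]
      simp only [c]
      rw [h5] at h4
      set W := |∑ l ∈ range (j + 1), A l / M l * T l (j + 1)|
      have e : W / s (j + 1) * (c j * s (j + 1) / sg (j + 1)) = W * c j / sg (j + 1) := by
        field_simp
      rw [e, div_le_iff₀ (by linarith)]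
      have : (0:ℝ) < 3 ^ (j + 1) := by positivity
      nlinarith

lemma b_le (j : ℕ) : |A j / M j| ≤ (1 / 2) ^ j := by
  have h1 := A_le j
  have h2 := M_pos j
  have h3 := c_pos j
  have h4 : 6 ^ j / c j ≤ M j := Nat.le_ceil _
  rw [div_le_iff₀ h3] at h4
  rw [abs_div, abs_of_pos h2, div_le_iff₀ h2]
  have e : (3:ℝ) ^ j = (1 / 2) ^ j * 6 ^ j := by rw [← mul_pow]; norm_num
  have h5 : (0:ℝ) < (1 / 2) ^ j := by positivity
  have : |A j| * c j ≤ (1 / 2) ^ j * M j * c j := by nlinarith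
  exact le_of_mul_le_mul_right this h3

noncomputable def S (j : ℕ) : Finset ℕ := (range (M j)).image (freq j)

lemma sum_S (j : ℕ) (f : ℕ → ℝ) : ∑ n ∈ S j, f n = ∑ r ∈ range (M j), f (freq j r) :=
  sum_image fun _ _ _ _ h => freq_inj j h

noncomputable def be (j n : ℕ) : ℝ := if n ∈ S j then A j / M j else 0

noncomputable def B (n : ℕ) : ℝ := ∑' j, be j n

lemma be_le (j n : ℕ) : ‖be j n‖ ≤ (1 / 2) ^ j := by
  unfold be; split_ifs
  · exact b_le j
  · simp

lemma B_even (n : ℕ) (h : ¬ Odd n) : B n = 0 := by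
  have : ∀ j, be j n = 0 := by
    intro j
    refine if_neg fun hn => h ?_
    obtain ⟨r, _, rfl⟩ := mem_image.1 hn
    exact freq_odd j r
  simp [B, this]

lemma S_ev (j : ℕ) : ∀ᶠ N in atTop, S j ⊆ range N := by
  obtain ⟨N, hN⟩ := (S j).exists_nat_subset_range
  filter_upwards [eventually_ge_atTop N] with N' h
  exact hN.trans (range_mono h)

lemma B_lim : Tendsto B atTop (𝓝 0) := by
  have := tendsto_tsum_of_dominated_convergence (𝓕 := atTop) (f := fun n j => be j n)
    (g := fun _ => 0) summable_geometric_two (fun j => ?_) (Eventually.of_forall fun n j => be_le j n)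
  · rw [tsum_zero] at this
    exact this
  · refine tendsto_const_nhds.congr' ?_
    filter_upwards [S_ev j] with n hn
    exact (if_neg fun h => by simpa using hn h).symm

lemma B_null (k : ℕ) : ∀ᶠ N in atTop, ∑ n ∈ range N, B n * sin (n * u (k + 1)) = 0 := by
  filter_upwards [(eventually_all_finset (range (k + 2))).2 fun j _ => S_ev j] with N hN
  have h1 : ∀ n : ℕ, B n * sin (n * u (k + 1))
      = ∑ j ∈ range (k + 2), be j n * sin (n * u (k + 1)) := by
    intro n
    rw [B, ← tsum_mul_right]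
    refine tsum_eq_sum fun j hj => ?_
    unfold be; split_ifs with hn
    · obtain ⟨r, _, rfl⟩ := mem_image.1 hn
      rw [F2 r (by simp at hj; omega), mul_zero]
    · simp
  simp only [h1]
  rw [sum_comm, ← A_kill k]
  refine sum_congr rfl fun j hj => ?_
  simp only [be, ite_mul, zero_mul]
  rw [← sum_filter, filter_mem_eq_inter, inter_eq_right.2 (hN j hj), sum_S, T, mul_sum]

lemma row (j : ℕ) (f : ℕ → ℝ) (g : ℝ → ℝ) (hg : g 0 = 0) :
    HasSum (fun n => g (be j n * f n)) (∑ r ∈ range (M j), g (A j / M j * f (freq j r))) := by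
  rw [← sum_S j (fun n => g (A j / M j * f n))]
  have : ∑ n ∈ S j, g (A j / M j * f n) = ∑ n ∈ S j, g (be j n * f n) :=
    sum_congr rfl fun n hn => by rw [be, if_pos hn]
  rw [this]
  exact hasSum_sum_of_ne_finset_zero fun n hn => by rw [be, if_neg hn, zero_mul, hg]

lemma row_le (j : ℕ) : ∑ r ∈ range (M (j + 1)), |A (j + 1) / M (j + 1) * m (freq (j + 1) r)|
    ≤ 1 / 10 * (1 / 2) ^ j := by
  have h2 := M_pos (j + 1)
  refine (sum_le_card_nsmul _ _ (|A (j + 1)| / M (j + 1) * (2 * c (j + 2))) fun r _ => ?_).trans ?_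
  · rw [abs_mul, abs_div, abs_of_pos h2]
    gcongr; exact m_succ j r
  · rw [card_range, nsmul_eq_mul]
    have e : M (j + 1) * (|A (j + 1)| / M (j + 1) * (2 * c (j + 2)))
        = 2 * (|A (j + 1)| * c (j + 2)) := by field_simp
    have h3 := A_le (j + 1)
    have h4 := mul_le_mul_of_nonneg_left (c_succ (j + 1)) (abs_nonneg (A (j + 1)))
    rw [← mul_assoc] at h4
    have h5 := mul_le_mul_of_nonneg_right h3 (show (0:ℝ) ≤ 2 / 10 ^ (j + 1 + 2) by positivity)
    have e2 : (3:ℝ) ^ (j + 1) * (2 / 10 ^ (j + 1 + 2)) = 6 / 1000 * (3 / 10) ^ j := by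
      rw [div_pow]; field_simp; ring
    have h6 : (3 / 10 : ℝ) ^ j ≤ (1 / 2) ^ j := pow_le_pow_left₀ (by norm_num) (by norm_num) j
    have h7 : (0:ℝ) < (1 / 2) ^ j := by positivity
    rw [e]; linarith

lemma pairing : Summable (fun n => B n * m n) ∧ 0 < ∑' n, B n * m n := by
  have h1 : Summable fun j => ∑ r ∈ range (M j), |A j / M j * m (freq j r)| := by
    rw [← summable_nat_add_iff 1]
    exact Summable.of_nonneg_of_le (fun j => sum_nonneg fun _ _ => abs_nonneg _) row_le
      (summable_geometric_two.mul_left _)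
  have h2 : Summable fun x : ℕ × ℕ => be x.1 x.2 * m x.2 := by
    apply Summable.of_abs
    rw [summable_prod_of_nonneg fun _ => abs_nonneg _]
    refine ⟨fun j => (row j m abs abs_zero).summable, ?_⟩
    simpa only [(row _ m abs abs_zero).tsum_eq] using h1
  have h3 : ∀ n, B n * m n = ∑' j, be j n * m n := fun n => by rw [B, tsum_mul_right]
  simp only [h3]
  refine ⟨h2.prod_symm.prod, ?_⟩
  have h4 := Summable.tsum_comm (f := fun j n => be j n * m n) h2
  have h5 : ∀ j, ∑' n, be j n * m n = ∑ r ∈ range (M j), A j / M j * m (freq j r) :=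
    fun j => (row j m id rfl).tsum_eq
  have h6 := h2.prod
  simp only [h5] at h4 h6
  rw [h4, h6.tsum_eq_zero_add]
  have h7 : ‖∑' j, ∑ r ∈ range (M (j + 1)), A (j + 1) / M (j + 1) * m (freq (j + 1) r)‖
      ≤ 1 / 10 * 2 :=
    tsum_of_norm_bounded (hasSum_geometric_two.mul_left (1 / 10))
      fun j => (abs_sum_le_sum_abs _ _).trans (row_le j)
  have h8 : 2 / 5 ≤ ∑ r ∈ range (M 0), A 0 / M 0 * m (freq 0 r) := by
    have h9 := M_pos 0
    refine le_trans (le_of_eq ?_) (card_nsmul_le_sum _ _ ((1:ℝ) / M 0 * (2 / 5)) fun r _ => ?_)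
    · rw [card_range, nsmul_eq_mul]; field_simp
    · rw [A]; gcongr; exact m_zero r
  have := (abs_le.1 h7).1
  linarith

lemma u_lim : Tendsto (fun k => u (k + 1)) atTop (𝓝 0) := by
  refine tendsto_const_nhds.div_atTop (tendsto_natCast_atTop_atTop.comp ?_)
  exact tendsto_atTop_mono (fun k => by have := q_ge (k + 1 + 1); simp only [id]; omega) tendsto_id

end Pool.Agent.H.MP_807847_an
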